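import Pool.Agent.Q150.VisF

/-!
# Points seeing little boundary in planar epsilon-visible spaces

For all `λ, ρ < 1` and all constants `c, C > 0` there is an `ε`-visible space whose exceptional set
has area larger than `C √ε μ(F)`.
-/

namespace Pool.Agent.Results.MP_9521de_co.DeepSlots

open Q150.Vis MeasureTheory

/-- For all `0 < lam < 1`, `0 < rho < 1` and all `c, C > 0` there are `ε ∈ (0, 1]` and an
`ε`-visible space (aspect ratio at least `lam`, `μ(F) ≥ rho μ(R)`) with
`μ(E) > C √ε μ(F)`, where `E` is the set of the points of the free space whose visible boundary is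
shorter than `c √(ε μ(F))`. -/
theorem result (lam rho c C : ℝ) (_hlam0 : 0 < lam) (hlam1 : lam < 1) (_hrho0 : 0 < rho)
    (hrho1 : rho < 1) (hc : 0 < c) (hC : 0 < C) :
    ∃ (S : Space) (ε : ℝ), 0 < ε ∧ ε ≤ 1 ∧ S.AspectRatioAtLeast lam ∧
      rho * (volume S.R).toReal ≤ (volume S.F).toReal ∧ S.IsVisible ε ∧
      ENNReal.ofReal (C * Real.sqrt ε * (volume S.F).toReal) < volume (S.exceptional c ε) :=
  main lam rho c C hlam1 hrho1 hc hC

end Pool.Agent.Results.MP_9521de_co.DeepSlots
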